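import Pool.Agent.H21.L.R_seed8.W189.NF.LSer
import Pool.Agent.H21.L.R_seed8.W189.LC.EPMain

/-! Mittag-Leffler sums for elliptic curves over number fields. -/

set_option autoImplicit false

namespace Pool.Agent.W189.NF

open IsDedekindDomain NumberField Filter Topology Set
open Pool.Agent.H921R2.TatePole (nm two_le_nm nm_summable)
open Pool.Agent.W189.LC Pool.Agent.W189.ML

variable {K : Type} [Field K] [NumberField K] (E : WeierstrassCurve K)

instance countable_primes : Countable (HeightOneSpectrum (𝓞 K)) := by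
  have h1 : (Set.univ : Set (HeightOneSpectrum (𝓞 K))) = ⋃ b : ℕ, {v | nm v ≤ b} := by
    ext v
    simp only [Set.mem_univ, Set.mem_iUnion, Set.mem_ofPred_eq, true_iff]
    exact ⟨nm v, le_rfl⟩
  have h2 : (Set.univ : Set (HeightOneSpectrum (𝓞 K))).Countable := by
    rw [h1]
    exact Set.countable_iUnion fun b => ((northcott_nm (K := K)).finite_le b).countable
  exact Set.countable_univ_iff.1 h2

/-- the numerical data -/
theorem nfEP : EP (fun v : HeightOneSpectrum (𝓞 K) => (nm v : ℝ)) (fun v => ((aV E v : ℤ) : ℝ))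
    (fun v => ((eV E v : ℤ) : ℝ)) where
  two_le := fun v => by exact_mod_cast two_le_nm v
  sum := fun σ hσ => nm_summable hσ
  ha := fun v => by
    have := aV_le E v
    exact_mod_cast this
  he := fun v => by
    have := eV_le E v
    exact_mod_cast this

/-- the series `∑ c_i e^{-w lam_i}` is analytic in `Re w > 1` -/
theorem ser_analytic {ι : Type} {lam c : ι → ℝ} (hl : ∀ i, 0 ≤ lam i)
    (hs : ∀ σ : ℝ, 1 < σ → Summable fun i => |c i| * Real.exp (-(σ * lam i))) {w : ℂ}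
    (hw : 1 < w.re) : AnalyticAt ℂ (ser lam c) w := by
  set σ : ℝ := (1 + w.re) / 2 with hσ
  have hσ1 : 1 < σ := by rw [hσ]; linarith
  have hσw : σ < w.re := by rw [hσ]; linarith
  have hopen : IsOpen {z : ℂ | σ < z.re} := isOpen_lt continuous_const Complex.continuous_re
  have h1 : DifferentiableOn ℂ (ser lam c) {z : ℂ | σ < z.re} := by
    unfold ser
    refine Complex.differentiableOn_tsum_of_summable_norm (hs σ hσ1) (fun i => ?_) hopen
      (fun i z hz => ?_)
    · exact Differentiable.differentiableOn (by fun_prop)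
    · rw [norm_mul, Complex.norm_real, Real.norm_eq_abs, Complex.norm_exp]
      refine mul_le_mul_of_nonneg_left ?_ (abs_nonneg _)
      apply Real.exp_le_exp.2
      have h2 : (-(z * lam i)).re = -(z.re * lam i) := by rw [Complex.neg_re, Complex.re_mul_ofReal]
      rw [h2]
      have hz' : σ < z.re := hz
      have := hl i
      nlinarith
  exact h1.analyticAt (hopen.mem_nhds hσw)

/-- `F` is a continuation of the `L`-series of `E`, from `Re s > 2` along the real axis to `s = 1`,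
which is meromorphic at every real point of `[1, 2]` -/
def IsCont (F : ℂ → ℂ) : Prop :=
  (∀ x : ℝ, 1 ≤ x → x ≤ 2 → MeromorphicAt F (x : ℂ)) ∧ ∀ s : ℂ, 2 < s.re → F s = E.LSeries s

variable {E} {F : ℂ → ℂ}

theorem IsCont.prod (hF : IsCont E F) (s : ℂ) (hs : 2 < s.re) :
    HasProd (fun v : HeightOneSpectrum (𝓞 K) => (1 - (((aV E v : ℤ) : ℝ) : ℂ) *
      (((nm v : ℕ) : ℝ) : ℂ) ^ (-s) + (((eV E v : ℤ) : ℝ) : ℂ) *
      ((((nm v : ℕ) : ℝ) : ℂ) ^ (-s)) ^ 2)⁻¹) (F s) := by
  have h1 := (LSeries_hasProd E hs).2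
  rw [← hF.2 s hs] at h1
  simpa using h1

theorem IsCont.mero (hF : IsCont E F) : ∀ x ∈ Icc (1 : ℝ) 3, MeromorphicAt F (x : ℂ) := by
  intro x hx
  by_cases h : x ≤ 2
  · exact hF.1 x hx.1 h
  · push Not at h
    have h1 : AnalyticAt ℂ (fun s : ℂ => Complex.exp (ser (fr fun v : HeightOneSpectrum (𝓞 K) =>
        (nm v : ℝ)) (cf (fun v => (nm v : ℝ)) (fun v => ((aV E v : ℤ) : ℝ))
        (fun v => ((eV E v : ℤ) : ℝ))) (s - 1))) (x : ℂ) := by
      have h2 : AnalyticAt ℂ (ser (fr fun v : HeightOneSpectrum (𝓞 K) =>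
          (nm v : ℝ)) (cf (fun v => (nm v : ℝ)) (fun v => ((aV E v : ℤ) : ℝ))
          (fun v => ((eV E v : ℤ) : ℝ)))) ((x : ℂ) - 1) := by
        refine ser_analytic (nfEP E).fr_nonneg (fun σ hσ => (nfEP E).summable hσ) ?_
        simp
        linarith
      exact (AnalyticAt.comp (f := fun s : ℂ => s - 1) h2 (by fun_prop)).cexp
    have h3 : F =ᶠ[𝓝 (x : ℂ)] fun s : ℂ => Complex.exp (ser (fr fun v : HeightOneSpectrum (𝓞 K) =>
        (nm v : ℝ)) (cf (fun v => (nm v : ℝ)) (fun v => ((aV E v : ℤ) : ℝ))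
        (fun v => ((eV E v : ℤ) : ℝ))) (s - 1)) := by
      have hopen : IsOpen {z : ℂ | 2 < z.re} := isOpen_lt continuous_const Complex.continuous_re
      filter_upwards [hopen.mem_nhds (show (2 : ℝ) < (x : ℂ).re by simpa using h)] with s hs
      have hs' : 2 < s.re := hs
      have h4 := (nfEP E).hasProd (w := s - 1) (by simp; linarith)
      rw [add_sub_cancel] at h4
      exact (hF.prod s hs').unique h4
    exact (h1.congr h3.symm).meromorphicAt

/-- `- (α_v^k + β_v^k) = #E(𝔽_q) - q - 1`, `q = q_v^k` (for good `v`, by Weil's theorem), `k = j + 1`,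
divided by `k q_v^k Γ(1 + k log q_v / T)` -/
noncomputable def bsTerm (E : WeierstrassCurve K) (T : ℝ) (x : HeightOneSpectrum (𝓞 K) × ℕ) : ℝ :=
  -(psum (aV E x.1) (eV E x.1) (x.2 + 1) : ℤ) /
    ((x.2 + 1) * ((Ideal.absNorm x.1.asIdeal : ℕ) : ℝ) ^ (x.2 + 1) *
      Real.Gamma (1 + (x.2 + 1) * Real.log ((Ideal.absNorm x.1.asIdeal : ℕ) : ℝ) / T))

/-- the smoothed logarithm of the Birch and Swinnerton-Dyer product -/
noncomputable def bsSum (E : WeierstrassCurve K) (T : ℝ) : ℝ := ∑' x, bsTerm E T x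

theorem psum_cast' (a e : ℤ) (n : ℕ) : ((psum a e n : ℤ) : ℝ) = psum (a : ℝ) (e : ℝ) n := by
  induction n using Nat.twoStepInduction with
  | zero => simp [psum]
  | one => simp [psum]
  | more n ih1 ih2 =>
    simp only [psum]
    push_cast
    rw [ih1, ih2]

theorem bsTerm_eq (E : WeierstrassCurve K) (T : ℝ) (x : HeightOneSpectrum (𝓞 K) × ℕ) :
    bsTerm E T x = -(cf (fun v : HeightOneSpectrum (𝓞 K) => (nm v : ℝ))
      (fun v => ((aV E v : ℤ) : ℝ)) (fun v => ((eV E v : ℤ) : ℝ)) x /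
      Real.Gamma (1 + fr (fun v : HeightOneSpectrum (𝓞 K) => (nm v : ℝ)) x / T)) := by
  unfold bsTerm cf fr
  rw [psum_cast', div_div, neg_div]
  rfl

theorem bsSum_eq (E : WeierstrassCurve K) (T : ℝ) : bsSum E T =
    -sm (fun v : HeightOneSpectrum (𝓞 K) => (nm v : ℝ)) (fun v => ((aV E v : ℤ) : ℝ))
      (fun v => ((eV E v : ℤ) : ℝ)) T := by
  unfold bsSum sm
  rw [← tsum_neg]
  exact tsum_congr fun x => bsTerm_eq E T x

theorem bsTerm_summable (E : WeierstrassCurve K) {T : ℝ} (hT : 0 < T) :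
    Summable fun x => |bsTerm E T x| := by
  refine ((nfEP E).sm_summable hT).congr fun x => ?_
  rw [bsTerm_eq, abs_neg, abs_div]
  congr 1
  have h1 : 0 ≤ fr (fun v : HeightOneSpectrum (𝓞 K) => (nm v : ℝ)) x / T :=
    div_nonneg ((nfEP E).fr_nonneg x) hT.le
  rw [abs_of_pos (Real.Gamma_pos_of_pos (by linarith))]

/-- the theorem in full -/
theorem nf_main (hF : IsCont E F) :
    (∀ T : ℝ, 0 < T → Summable fun x => |bsTerm E T x|) ∧
    ((∀ σ : ℝ, 1 < σ → meromorphicOrderAt F (σ : ℂ) = 0) → ∃ (m : ℤ) (l : ℝ),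
      meromorphicOrderAt F 1 = m ∧ meromorphicTrailingCoeffAt F 1 = l ∧ 0 < l ∧
      (fun T : ℝ => bsSum E T - (m * (Real.log T - kap) - Real.log l)) =O[atTop]
        fun T : ℝ => 1 / T) ∧
    ((∃ σ : ℝ, 1 < σ ∧ meromorphicOrderAt F (σ : ℂ) ≠ 0) → ∃ (β : ℝ) (m : ℤ), 1 < β ∧ m ≠ 0 ∧
      meromorphicOrderAt F (β : ℂ) = m ∧
      (∀ σ : ℝ, β < σ → meromorphicOrderAt F (σ : ℂ) = 0) ∧
      Tendsto (fun T : ℝ => bsSum E T / grow ((β - 1) * T)) atTop (𝓝 m) ∧
      ∀ y < β - 1, ∀ᶠ T : ℝ in atTop, Real.exp (Real.exp (y * T)) ≤ |bsSum E T|) ∧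
    ∀ (r : ℕ) (B : ℝ), 0 < B →
      (((∀ σ : ℝ, 1 < σ → meromorphicOrderAt F (σ : ℂ) = 0) ∧
        meromorphicOrderAt F 1 = ((r : ℤ) : WithTop ℤ) ∧ meromorphicTrailingCoeffAt F 1 = B) ↔
      Tendsto (fun T : ℝ => bsSum E T - r * Real.log T) atTop
        (𝓝 (-(r * kap) - Real.log B))) := by
  have E' := nfEP E
  refine ⟨fun T hT => bsTerm_summable E hT, ?_, ?_, ?_⟩
  · intro hz
    have htop := E'.order_ne_top hF.mero hF.prod (x := 1) ⟨le_rfl, by norm_num⟩
    rw [Complex.ofReal_one] at htop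
    obtain ⟨m, hm⟩ := WithTop.ne_top_iff_exists.1 htop
    obtain ⟨h1, h2, C, T₀, hC, hT₀, h3⟩ := E'.regular hF.mero hF.prod hm.symm
      (fun σ hσ => hz σ hσ.1)
    refine ⟨m, (meromorphicTrailingCoeffAt F 1).re, hm.symm, ?_, h2, ?_⟩
    · apply Complex.ext
      · simp
      · simpa using h1
    · refine Asymptotics.IsBigO.of_bound C ?_
      filter_upwards [eventually_ge_atTop T₀] with T hT
      have hT1 : 0 < T := by linarith
      have h5 := h3 T hT
      rw [bsSum_eq, Real.norm_eq_abs, Real.norm_eq_abs, abs_of_pos (by positivity : 0 < 1 / T),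
        mul_one_div]
      refine le_trans (le_of_eq ?_) h5
      rw [← abs_neg]
      congr 1
      ring
  · rintro ⟨σ₀, hσ₀, hσz⟩
    have hz : ¬ ∀ σ ∈ Set.Ioc (1 : ℝ) 2, meromorphicOrderAt F (σ : ℂ) = 0 := by
      intro h
      apply hσz
      by_cases hc : σ₀ ≤ 2
      · exact h σ₀ ⟨hσ₀, hc⟩
      · push Not at hc
        exact E'.order_right hF.mero hF.prod hc
    obtain ⟨β, m, h1, h2, hm0, hm, h3, h4, h5⟩ := E'.singular hF.mero hF.prod hz
    refine ⟨β, m, h1, hm0, hm, h3, ?_, ?_⟩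
    · have h7 := h4.neg
      rw [neg_neg] at h7
      refine h7.congr fun T => ?_
      rw [bsSum_eq, neg_div]
    · intro y hy
      filter_upwards [h5 y hy] with T hT
      rw [bsSum_eq, abs_neg]
      exact hT
  · intro r B hB
    have h1 := E'.iff hF.mero hF.prod (r : ℤ) hB
    rw [h1]
    have h4 : (fun T : ℝ => bsSum E T - r * Real.log T) = fun T =>
        -(sm (fun v : HeightOneSpectrum (𝓞 K) => (nm v : ℝ)) (fun v => ((aV E v : ℤ) : ℝ))
          (fun v => ((eV E v : ℤ) : ℝ)) T + ((r : ℤ) : ℝ) * Real.log T) := by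
      funext T
      rw [bsSum_eq]
      push_cast
      ring
    rw [h4]
    constructor
    · intro h
      have h5 := h.neg
      refine h5.trans (le_of_eq ?_)
      congr 1
      push_cast
      ring
    · intro h
      have h5 := h.neg
      simp only [neg_neg] at h5
      refine h5.trans (le_of_eq ?_)
      congr 1
      push_cast
      ring

end Pool.Agent.W189.NF
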